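import Pool.Agent.TH700.UG.Main
import Pool.Agent.TH843.LR.Main

set_option autoImplicit false

/-!
# Local reductions from gap 3-SAT to unique games must be large

The definitions used in the statement are `Reads`, `SatOn`, `violated`, `Represents` in
`Pool/Agent/TH700/UG/Defs.lean` and `Clause`, `Satisfies`, `falsified` in
`Pool/Agent/W888/GX/Mix.lean`.

All known reductions from gap 3-SAT (or from other gap problems) to unique games and their relatives
are local: for every assignment `x` there is an honest labelling, each label of which depends on few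
of the variables (the assignment of the variables of a few clauses, in some encoding), and that the
honest labelling of a satisfying assignment violates at most a fraction `ε` of the edges is seen
gadget by gadget, from the clauses inside of each gadget. `Represents F d ε s t π` says this for the
formula `F` and the unique game `(s, t, π)`, `d` being the locality.

The theorem: for some formulas `F` in `n` variables with `O(n)` clauses, at most a fraction
`7 / 8 + δ` of which can be satisfied, every unique game of value less than `1 - γ` which represents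
`F` with completeness `1 - ε` and locality `d` has more than
`(c γ ^ 4 n / d) ^ (γ ^ 4 / (C ε log (2 / ε)))` vertices. So a local reduction that proves that
unique games with value at least `1 - ε` and value less than `1 - γ` are hard to tell apart has
size at least `n ^ (c(γ) / (ε log (1 / ε)))`, and in a reduction of polynomial size the labels must
depend on at least `n ^ (1 - C(γ) ε log (1 / ε))` of the variables. This is unconditional.

Proof: for random formulas there is a pseudo-expectation of linear degree which satisfies all
clauses. On few variables it is a distribution on locally satisfying assignments, hence composed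
with the honest labelling it is a pseudo-expectation on labellings, of degree `n / d` up to a
constant, with value at least `1 - ε`. The rounding theorem for sums of squares of degree
`N ^ (O(ε log (1 / ε)))` (starting result `SosNearLinearExponent`) gives a labelling of value
`1 - γ`.
-/

namespace Pool.Agent.Results.MP_325f1f_lc.LocalReductions

open Pool.Agent.W888.GX Pool.Agent.TH700.UG

/-- There is an absolute constant `C` such that for every `δ > 0` there are `M` and `c > 0` such
that for all large `n` there is a formula `F` with at least `n` and at most `M n` clauses, with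
three literals each, over `n` variables, every assignment of which falsifies at least a fraction
`1 / 8 - δ` of the clauses, and with the following property. Let `0 < ε ≤ γ < 1` and `d ≥ 1`. If a unique game (with
vertices `V`, any finite alphabet `A`, and edges `E`) represents `F` with locality `d` and
completeness `1 - ε`, and if every labelling violates more than `γ |E|` edges, then
`|V| > (c γ ^ 4 n / d) ^ (γ ^ 4 / (C ε log (2 / ε)))`. -/
theorem result : ∃ C : ℝ, 0 < C ∧ ∀ δ : ℝ, 0 < δ →
    ∃ M : ℕ, 1 ≤ M ∧ ∃ c : ℝ, 0 < c ∧ ∃ n₀ : ℕ, ∀ n : ℕ, n₀ ≤ n →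
      ∃ (I : Type) (_ : Fintype I) (F : I → Clause 3 n),
        n ≤ Fintype.card I ∧ Fintype.card I ≤ M * n ∧
        (∀ x, (1 / 8 - δ) * (Fintype.card I : ℝ) ≤ (falsified F x : ℝ)) ∧
        ∀ (γ ε : ℝ) (d : ℕ) (V A E : Type) [Fintype V] [Fintype A] [DecidableEq A] [Fintype E]
          (s t : E → V) (π : E → Equiv.Perm A), 0 < ε → ε ≤ γ → γ < 1 → 1 ≤ d →
          Represents F d ε s t π →
          (∀ x : V → A, γ * Fintype.card E < (violated s t π x : ℝ)) →
          (c * γ ^ 4 * n / d) ^ (γ ^ 4 / (C * (ε * Real.log (2 / ε)))) < Fintype.card V := by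
  obtain ⟨C, hC, h⟩ := Pool.Agent.TH843.LR.main_card
  refine ⟨C, hC, fun δ hδ => ?_⟩
  obtain ⟨M, hM, c, hc, n₀, hn₀⟩ := h δ hδ
  refine ⟨M, hM, c / C, by positivity, n₀, fun n hn => ?_⟩
  obtain ⟨I, hI, F, h0, h1, h2, h3⟩ := hn₀ n hn
  refine ⟨I, hI, F, h0, h1, h2, ?_⟩
  intro γ ε d V A E _ _ _ _ s t π hε hεγ hγ1 hd hR hfar
  have hγ : 0 < γ := lt_of_lt_of_le hε hεγ
  have hd0 : (0 : ℝ) < d := by exact_mod_cast hd
  have hlog : 0 < ε * Real.log (2 / ε) := by
    refine mul_pos hε (Real.log_pos ?_)
    rw [lt_div_iff₀ hε]
    linarith
  have h4 : c * n < C / γ ^ 4 *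
      (Fintype.card V : ℝ) ^ (C / γ ^ 4 * (ε * Real.log (2 / ε))) * d := by
    by_contra hcon
    obtain ⟨x, hx⟩ := h3 γ ε d V A E s t π hε hεγ hγ1 hd hR (not_lt.1 hcon)
    exact absurd hx (not_le.2 (hfar x))
  obtain ⟨θ, hθ⟩ : ∃ θ : ℝ, θ = C / γ ^ 4 * (ε * Real.log (2 / ε)) := ⟨_, rfl⟩
  have hθ0 : 0 < θ := by rw [hθ]; positivity
  have hθi : γ ^ 4 / (C * (ε * Real.log (2 / ε))) = θ⁻¹ := by
    rw [hθ, div_mul_eq_mul_div, inv_div]
  rw [← hθ] at h4
  rw [hθi]
  have h5 : c / C * γ ^ 4 * n / d < (Fintype.card V : ℝ) ^ θ := by
    rw [div_lt_iff₀ hd0]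
    have h6 : C / γ ^ 4 * (Fintype.card V : ℝ) ^ θ * d =
        C / γ ^ 4 * ((Fintype.card V : ℝ) ^ θ * d) := by ring
    rw [h6] at h4
    have h7 : c / C * γ ^ 4 * n = (C / γ ^ 4)⁻¹ * (c * n) := by
      rw [inv_div]
      ring
    rw [h7, inv_mul_lt_iff₀ (by positivity)]
    exact h4
  calc (c / C * γ ^ 4 * n / d) ^ θ⁻¹ < ((Fintype.card V : ℝ) ^ θ) ^ θ⁻¹ :=
        Real.rpow_lt_rpow (by positivity) h5 (by positivity)
    _ = Fintype.card V := Real.rpow_rpow_inv (Nat.cast_nonneg _) hθ0.ne'

end Pool.Agent.Results.MP_325f1f_lc.LocalReductions
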