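import Pool.Agent.TH661.UG.Triv

set_option autoImplicit false

/-!
# Semidefinite programs for unique games

The definitions used in the statement are in `Pool/Agent/TH661/UG/Game.lean`:

* `Game n A B`: sets of constraints `(u, v, π)`, where `u` and `v` are vertices (there are `n` on
  each side) and `π : Fin A → Fin B`; `sat G α β`: the number of the constraints `(u, v, π)` of `G`
  with `π (α u) = β v`;
* `GameSDP n A B T k r c₁ s`: the semidefinite programming formulations of the games whose maps `π`
  have the property `T`, which certify the upper bound `c₁` for the value of the games of value at
  most `s`, with `k` binary variables, any number of free real variables and linear equations, and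
  a positive semidefinite matrix variable of order `r`; for unique games `A = B` and `T` is
  `Function.Injective`;
* `bits x` (in `Pool/Agent/TH661/LRS/Cut.lean`): the zero-one vector of the truth values `x`.

Idea of the proof. Let `q = 2 ^ a`. Take a sparse random system of constraints on `q m` variables
with values in the field `F` with `q` elements; a constraint says that `q` of the variables, shifted
by random elements, are the values of an affine function on `F`. No assignment agrees with affine
functions in more than `(2 a + 3) / q` of all the places, but, as the affine functions are
pairwise independent, there is a pseudo-density of linear degree for which all the constraints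
hold. The labels of a constraint are the `q ^ 2` affine functions, the labels of a variable are
pairs in `F × F`; for every place of a constraint there are `q` bijections between these label
sets, of which exactly one is right for every affine function and every second component of the
label of the variable. So the pseudo-value is `1 / q`, while the value is at most
`(2 a + 3) / q ^ 2`. Now replace every bit of every variable by `b = n ^ Ω(1)` copies. A
formulation gives, by duality, positive semidefinite matrices `P S` and `Q x` of order
`2 ^ k (r + 1)` for the choices `S` of one copy of every bit and the assignments `x` of the copies.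
A polynomial of degree `(log n) t`, applied to the average of `D (x|S) P S` over `S`, isolates the
negative eigenvalues of this matrix, and its square is a low-degree function of `x`, against which
the average of `D (x|S) P S` cannot be negative for typical `S`, unless
`2 ^ k (r + 1) ≥ n ^ Ω(log n)`.
-/

namespace Pool.Agent.Results.MP_325f1f_lc.SemidefiniteFormulations

open Pool.Agent.TH661.UG

/-- Unique games with `R = 4 ^ a` labels, for all `a ≥ 2`.

(1) There is a constant `C` such that for all `n ≥ C` and `n ^ (-1 / C) ≤ δ ≤ 1` every semidefinite
programming formulation for games on `n + n` vertices, with `k` binary variables and a positive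
semidefinite matrix variable of order `r`, which certifies that the value is at most
`(1 - δ) R ^ (-1 / 2)` for all games of value at most `(log R + 3) / R` (binary logarithms), has
`2 ^ k (r + 1) ≥ n ^ ((log n) / C)`.

(2) For all `c₁ ≥ s` there is a formulation which certifies the upper bound `c₁` for all games of
value at most `s`, with `k = 0` and `r = R ^ (2 n)`. -/
theorem result : ∀ a : ℕ, 2 ≤ a →
    (∃ C : ℕ, 1 ≤ C ∧ ∀ (n k r : ℕ) (δ : ℝ), C ≤ n → (n : ℝ) ^ (-(1 / C) : ℝ) ≤ δ → δ ≤ 1 →
      Nonempty (GameSDP n (4 ^ a) (4 ^ a) Function.Injective k r ((1 - δ) / 2 ^ a)
        ((2 * a + 3) / 4 ^ a)) →
      (n : ℝ) ^ (Real.logb 2 n / C) ≤ 2 ^ k * (r + 1)) ∧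
    ∀ (n : ℕ) (c₁ s : ℝ), s ≤ c₁ →
      Nonempty (GameSDP n (4 ^ a) (4 ^ a) Function.Injective 0 ((4 ^ a) ^ n * (4 ^ a) ^ n) c₁ s) :=
  fun a ha => ⟨unique_lower a ha, fun _ _ _ h => game_upper _ h⟩

end Pool.Agent.Results.MP_325f1f_lc.SemidefiniteFormulations
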