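import Pool.Agent.TH522.UG.Mixed

/-!
Unique games and the mixed hierarchy (Sherali-Adams plus the basic semidefinite program) at level
`n ^ r`: loss `O(√(ε log (2/r) / r))`, for every alphabet.
-/

namespace Pool.Agent.Results.MP_325f1f_lc.SharpTradeoff

open Finset

/-- `f` depends only on the labels of the vertices in `S`. -/
def DependsOn {V A : Type} (S : Finset V) (f : (V → A) → ℝ) : Prop :=
  ∀ x y : V → A, (∀ v ∈ S, x v = y v) → f x = f y

/-- `L` is a solution of level `k` of the mixed hierarchy: a normalised linear functional on the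
functions of a labeling which is nonnegative on all nonnegative functions of at most `k + 2` labels
(Sherali-Adams), and such that after conditioning on at most `k` labels (the weight `g`) the matrix
of the pair moments is positive semidefinite (basic semidefinite program). Only the values of `L`
on functions of at most `k + 2` labels matter. -/
structure IsMixed {V A : Type} [Fintype V] (k : ℕ) (L : ((V → A) → ℝ) →ₗ[ℝ] ℝ) : Prop where
  one : L (fun _ => 1) = 1
  nonneg : ∀ S : Finset V, S.card ≤ k + 2 → ∀ f : (V → A) → ℝ, DependsOn S f → (∀ x, 0 ≤ f x) →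
    0 ≤ L f
  psd : ∀ S : Finset V, S.card ≤ k → ∀ g : (V → A) → ℝ, DependsOn S g → (∀ x, 0 ≤ g x) →
    ∀ c : V → A → ℝ, 0 ≤ L (fun x => g x * (∑ v, c v (x v)) ^ 2)

/-- For every unique game (any finite alphabet, any constraint graph on `n` vertices) and all
`0 < r ≤ 1`, `0 < γ < 1`, `ε > 0` with `2 ^ 30 * ε * log (2 / r) ≤ r * γ ^ 2`: if level
`k ≥ 2 ^ 30 * log (2 / γ) * n ^ r` of the mixed hierarchy has a solution of value at least `1 - ε`,
then some labeling satisfies at least a fraction `1 - γ` of the edges. -/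
theorem result (V A E : Type) [Fintype V] [Fintype A] [DecidableEq A] [Fintype E]
    (s t : E → V) (π : E → Equiv.Perm A) (r γ ε : ℝ) (k : ℕ) (L : ((V → A) → ℝ) →ₗ[ℝ] ℝ)
    (hr : 0 < r) (hr1 : r ≤ 1) (hγ : 0 < γ) (hγ1 : γ < 1) (hε : 0 < ε)
    (hεγ : 2 ^ 30 * (ε * Real.log (2 / r)) ≤ r * γ ^ 2)
    (hk : 2 ^ 30 * (Real.log (2 / γ) * (Fintype.card V : ℝ) ^ r) ≤ k)
    (hL : IsMixed k L)
    (hval : (1 - ε) * (Fintype.card E : ℝ)
      ≤ ∑ e, L (fun x => if π e (x (s e)) = x (t e) then 1 else 0)) :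
    ∃ x : V → A, (1 - γ) * (Fintype.card E : ℝ)
      ≤ ((univ.filter fun e => π e (x (s e)) = x (t e)).card : ℝ) := by
  classical
  exact Pool.Agent.TH522.UG.core (Pool.Agent.TH522.UG.hier_mixed V A) s t π r γ ε hr hr1 hγ hγ1
    hε (by norm_num at hεγ ⊢; exact hεγ) k (by norm_num at hk ⊢; exact hk) L
    ⟨hL.one, hL.nonneg, hL.psd⟩ hval

end Pool.Agent.Results.MP_325f1f_lc.SharpTradeoff
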