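import Pool.Agent.TH522.US.Main

/-!
Unique games with small soundness: completeness `1 - ε` against soundness `e ^ (-l)` is decided by
the mixed hierarchy (Sherali-Adams plus the basic semidefinite program) at a level `n ^ r` whose
exponent `r = C * (ε / l) * log (2 * l / ε)` tends to `0` as the soundness tends to `0`.
-/

namespace Pool.Agent.Results.MP_325f1f_lc.SmallSoundness

open Finset

/-- `f` depends only on the labels of the vertices in `S`. -/
def DependsOn {V A : Type} (S : Finset V) (f : (V → A) → ℝ) : Prop :=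
  ∀ x y : V → A, (∀ v ∈ S, x v = y v) → f x = f y

/-- `L` is a solution of level `k` of the mixed hierarchy: a normalised linear functional on the
functions of a labeling which is nonnegative on all nonnegative functions of at most `k + 2` labels
(Sherali-Adams), and such that after conditioning on at most `k` labels (the weight `g`) the matrix
of the pair moments is positive semidefinite (basic semidefinite program). -/
structure IsMixed {V A : Type} [Fintype V] (k : ℕ) (L : ((V → A) → ℝ) →ₗ[ℝ] ℝ) : Prop where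
  one : L (fun _ => 1) = 1
  nonneg : ∀ S : Finset V, S.card ≤ k + 2 → ∀ f : (V → A) → ℝ, DependsOn S f → (∀ x, 0 ≤ f x) →
    0 ≤ L f
  psd : ∀ S : Finset V, S.card ≤ k → ∀ g : (V → A) → ℝ, DependsOn S g → (∀ x, 0 ≤ g x) →
    ∀ c : V → A → ℝ, 0 ≤ L (fun x => g x * (∑ v, c v (x v)) ^ 2)

/-- For every unique game (any finite alphabet, any constraint graph on `n` vertices), all
`0 < ε ≤ 2 ^ (-17)` and all `ε ≤ l ≤ log n`: if level
`k ≥ 2 ^ 20 * n ^ (2 ^ 19 * x * log (2 / x))`, `x = ε / l`, of the mixed hierarchy has a solution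
of value at least `1 - ε`, then some labeling satisfies at least a fraction `e ^ (-l) / 2 ^ 16` of
the edges. -/
theorem result (V A E : Type) [Fintype V] [Fintype A] [DecidableEq A] [Fintype E]
    (s t : E → V) (π : E → Equiv.Perm A) (ε l : ℝ) (k : ℕ) (L : ((V → A) → ℝ) →ₗ[ℝ] ℝ)
    (hε : 0 < ε) (hε' : ε ≤ 1 / 2 ^ 17) (hl : ε ≤ l) (hl' : l ≤ Real.log (Fintype.card V))
    (hk : 2 ^ 20 * (Fintype.card V : ℝ) ^ ((2 : ℝ) ^ 19 * (ε / l * Real.log (2 / (ε / l)))) ≤ k)
    (hL : IsMixed k L)
    (hval : (1 - ε) * (Fintype.card E : ℝ)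
      ≤ ∑ e, L (fun x => if π e (x (s e)) = x (t e) then 1 else 0)) :
    ∃ x : V → A, Real.exp (-l) / 2 ^ 16 * (Fintype.card E : ℝ)
      ≤ ((univ.filter fun e => π e (x (s e)) = x (t e)).card : ℝ) := by
  classical
  have hl0 : 0 < l := by linarith
  have hn : 1 ≤ (Fintype.card V : ℝ) := by
    by_contra hcon
    push Not at hcon
    have h1 : Fintype.card V < 1 := by exact_mod_cast hcon
    have h2 : Fintype.card V = 0 := by omega
    rw [h2] at hl'
    simp at hl'
    linarith
  have hx0 : 0 < ε / l := by positivity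
  have hx1 : ε / l ≤ 1 := by rw [div_le_one hl0]; exact hl
  have hX : 0 ≤ (2 : ℝ) ^ 19 * (ε / l * Real.log (2 / (ε / l))) := by
    have h1 : 0 ≤ Real.log (2 / (ε / l)) :=
      Real.log_nonneg (by rw [le_div_iff₀ hx0]; linarith)
    positivity
  have hpow := Real.one_le_rpow hn hX
  obtain ⟨j, rfl⟩ : ∃ j, k = j + 1 := by
    refine ⟨k - 1, ?_⟩
    have h1 : (0 : ℝ) < k := by
      have h2 : (0 : ℝ) < 2 ^ 20 * (Fintype.card V : ℝ) ^
        ((2 : ℝ) ^ 19 * (ε / l * Real.log (2 / (ε / l)))) := by positivity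
      linarith
    have h2 : 0 < k := by exact_mod_cast h1
    omega
  obtain ⟨x, hx⟩ := Pool.Agent.TH522.US.core s t π ε l hε (by norm_num at hε' ⊢; exact hε') hl hl'
    j (by push_cast at hk; exact hk) L ⟨hL.one, hL.nonneg, hL.psd⟩ hval
  exact ⟨x, by norm_num at hx ⊢; exact hx⟩

end Pool.Agent.Results.MP_325f1f_lc.SmallSoundness
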